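import Pool.Agent.J6H54.CH.Stm

set_option autoImplicit false

/-!
# Project CH of helper54, module CH-02 (helper48): length of translations
-/

namespace Pool.Agent.J6H48.CH02

open Pool.Agent.J6H54.CH

theorem m02 : S_metric := by
  intro Λ _ σ T p q κ M C0 R H hT hB
  have hκ := H.κ_pos
  have hM := H.one_le_M
  have hC0 := H.one_le_C0
  obtain ⟨B, hBd⟩ : ∃ B : ℝ, B = (2 + M) * C0 + 2 + κ * C0 := ⟨_, rfl⟩
  have hκC : 0 < κ * C0 := by positivity
  have hMC : 1 ≤ M * C0 := by nlinarith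
  obtain ⟨c, hc⟩ : ∃ c : ℕ, ∀ x : Λ, p x ≤ B → q x ≤ B → len σ T (x, 0) ≤ c := by
    obtain ⟨c, hc⟩ := ((H.fin B).image (fun x => len σ T (x, 0))).bddAbove
    exact ⟨c, fun x h1 h2 => hc ⟨x, ⟨h1, h2⟩, rfl⟩⟩
  have hs : ∀ Y : Λ, σ (σ⁻¹ Y) = Y := by
    intro Y
    have := pow_pow_neg (σ := σ) 1 Y
    simpa using this
  have key : ∀ L : ℕ, ∀ Y y : Λ, p (Y - y) ≤ C0 → q y ≤ C0 + 1 → p ((σ ^ (-(L : ℤ))) Y) ≤ 1 →
      len σ T (y, 0) ≤ (L + 1) * (c + 2 * R) := by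
    intro L
    induction L with
    | zero =>
      intro Y y h1 h2 h3
      rw [Nat.cast_zero, neg_zero, pow_zero_apply] at h3
      have h4 := H.p_sub Y (Y - y)
      rw [sub_sub_cancel] at h4
      have h5 := hc y (by rw [hBd]; nlinarith) (by rw [hBd]; nlinarith)
      omega
    | succ L ih =>
      intro Y y h1 h2 h3
      obtain ⟨y', h4, h5⟩ := H.appr (σ⁻¹ Y) 0
      rw [zero_sub, H.q_neg] at h5
      obtain ⟨x, hx⟩ : ∃ x, x = y - σ y' := ⟨_, rfl⟩
      have hpx : p x ≤ C0 + M * C0 := by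
        have e : x = (y - Y) + σ (σ⁻¹ Y - y') := by
          rw [hx, map_sub, hs]
          abel
        rw [e]
        have h6 := H.p_add (y - Y) (σ (σ⁻¹ Y - y'))
        have h7 := H.p_grow (σ⁻¹ Y - y')
        have h8 : p (y - Y) = p (Y - y) := by rw [← H.p_neg, neg_sub]
        have h9 : M * p (σ⁻¹ Y - y') ≤ M * C0 := mul_le_mul_of_nonneg_left h4 (by linarith)
        linarith
      have hqx : q x ≤ C0 + 1 + κ * C0 := by
        rw [hx]
        have h6 := H.q_sub y (σ y')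
        have h7 := H.q_contr y'
        have h9 : κ * q y' ≤ κ * C0 := mul_le_mul_of_nonneg_left h5 hκ.le
        linarith
      have h10 := hc x (by rw [hBd]; nlinarith) (by rw [hBd]; nlinarith)
      have h11 := ih (σ⁻¹ Y) y' h4 (by linarith) (by
        have e : (σ ^ (-((L + 1 : ℕ) : ℤ))) Y = (σ ^ (-(L : ℤ))) (σ⁻¹ Y) := by
          have : (-((L + 1 : ℕ) : ℤ)) = -(L : ℤ) + -1 := by push_cast; ring
          rw [this, pow_add_apply]
          simp
        rw [← e]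
        exact h3)
      have e : (y, (0 : ℤ)) = mul σ (mul σ (mul σ (x, 0) (0, 1)) (y', 0)) (0, -1) := by
        apply Prod.ext
        · simp [mul, hx]
        · simp [mul]
      rw [e]
      have h12 := len_mul hT (mul σ (mul σ (x, 0) (0, 1)) (y', 0)) (0, -1)
      have h13 := len_mul hT (mul σ (x, 0) (0, 1)) (y', 0)
      have h14 := len_mul hT (x, (0 : ℤ)) (0, 1)
      have h15 := hB.t_le
      have h16 := hB.t'_le
      have h17 : (L + 1 + 1) * (c + 2 * R) = (L + 1) * (c + 2 * R) + (c + 2 * R) := by ring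
      omega
  obtain ⟨c', hc'⟩ := exists_pow_lt_of_lt_one (show (0 : ℝ) < 1 / 2 by norm_num) H.κ_lt
  refine ⟨(c + 2 * R) * (3 * c' + 2), ?_⟩
  intro d L N y hp hq
  obtain ⟨n, hn⟩ : ∃ n, n = c' * N := ⟨_, rfl⟩
  have hκn : κ ^ n * 2 ^ N ≤ 1 := by
    rw [hn, pow_mul, ← mul_pow]
    apply pow_le_one₀ (by positivity)
    linarith
  have hκn0 : 0 ≤ κ ^ n := by positivity
  obtain ⟨Y, hY⟩ : ∃ Y, Y = (σ ^ ((d + n : ℕ) : ℤ)) y := ⟨_, rfl⟩
  have hqY : q Y ≤ 1 := by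
    have e : Y = (σ ^ (n : ℤ)) ((σ ^ (d : ℤ)) y) := by
      rw [hY, ← pow_add_apply]
      congr 2
      push_cast
      ring
    rw [e]
    refine (H.q_pow n _).trans (le_trans (mul_le_mul_of_nonneg_left hq hκn0) hκn)
  have hpY : p ((σ ^ (-((L + d + 2 * n : ℕ) : ℤ))) Y) ≤ 1 := by
    have e : (σ ^ (-((L + d + 2 * n : ℕ) : ℤ))) Y = (σ ^ (-(n : ℤ))) ((σ ^ (-(L : ℤ))) y) := by
      rw [hY, ← pow_add_apply, ← pow_add_apply]
      congr 2
      push_cast
      ring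
    rw [e]
    refine (H.p_pow n _).trans (le_trans (mul_le_mul_of_nonneg_left hp hκn0) hκn)
  have h1 := key (L + d + 2 * n) Y Y (by rw [sub_self, H.p_zero]; linarith) (by linarith) hpY
  have e : (y, (0 : ℤ)) = mul σ (mul σ (0, -((d + n : ℕ) : ℤ)) (Y, 0)) (0, ((d + n : ℕ) : ℤ)) := by
    apply Prod.ext
    · change y = 0 + (σ ^ (-((d + n : ℕ) : ℤ))) Y + (σ ^ (-((d + n : ℕ) : ℤ) + 0)) 0
      rw [map_zero, add_zero, zero_add, hY, pow_neg_pow]
    · change (0 : ℤ) = -((d + n : ℕ) : ℤ) + 0 + ((d + n : ℕ) : ℤ)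
      ring
  rw [e]
  have h2 := len_mul hT (mul σ (0, -((d + n : ℕ) : ℤ)) (Y, 0)) (0, ((d + n : ℕ) : ℤ))
  have h3 := len_mul hT (0, -((d + n : ℕ) : ℤ)) (Y, 0)
  have h4 := len_vert hT hB (-((d + n : ℕ) : ℤ))
  have h5 := len_vert hT hB ((d + n : ℕ) : ℤ)
  rw [Int.natAbs_neg, Int.natAbs_natCast] at h4
  rw [Int.natAbs_natCast] at h5
  obtain ⟨K, hK⟩ : ∃ K, K = c + 2 * R := ⟨_, rfl⟩
  rw [← hK] at h1 ⊢
  have h6 : len σ T (mul σ (mul σ (0, -((d + n : ℕ) : ℤ)) (Y, 0)) (0, ((d + n : ℕ) : ℤ))) ≤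
      R * (d + n) + (L + d + 2 * n + 1) * K + R * (d + n) := by omega
  refine h6.trans ?_
  have h7 : R * (d + n) + R * (d + n) ≤ K * (d + n) := by
    have : K * (d + n) = R * (d + n) + R * (d + n) + c * (d + n) := by rw [hK]; ring
    omega
  have h8 : K * (d + n) + (L + d + 2 * n + 1) * K = K * (2 * d + L + 3 * n + 1) := by ring
  have h9 : 2 * d + L + 3 * n + 1 ≤ (3 * c' + 2) * (d + L + N + 1) := by
    rw [hn]
    have : (3 * c' + 2) * (d + L + N + 1) = 2 * d + L + 3 * (c' * N) + 1 +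
      (3 * c' * (d + L + 1) + L + 2 * N + 1) := by ring
    omega
  calc R * (d + n) + (L + d + 2 * n + 1) * K + R * (d + n)
      ≤ K * (d + n) + (L + d + 2 * n + 1) * K := by omega
    _ = K * (2 * d + L + 3 * n + 1) := h8
    _ ≤ K * ((3 * c' + 2) * (d + L + N + 1)) := Nat.mul_le_mul_left _ h9
    _ = K * (3 * c' + 2) * (d + L + N + 1) := by ring

end Pool.Agent.J6H48.CH02
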