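import Pool.Agent.J6H54.CH.Stm

/-!
# CH-28: conjugacy classes in the group and in the model (helper48 for helper54)

Adapted from `J6H57/CG/M27` (helper57).
-/

set_option autoImplicit false

namespace Pool.Agent.J6H48.CH28

open Pool.Agent.J6H54.CH

lemma cj_iff {Λ : Type} [AddCommGroup Λ] {σ : Λ ≃ₗ[ℤ] Λ} {G : Type} [Group G] {f : G → Λ × ℤ}
    (hM : Mdl σ G f) (g h : G) :
    ConjClasses.mk g = ConjClasses.mk h ↔ Cj σ (f g) (f h) := by
  rw [ConjClasses.mk_eq_mk_iff_isConj, isConj_iff]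
  constructor
  · rintro ⟨c, hc⟩
    refine ⟨f c, ?_⟩
    rw [← hM.map_mul, ← hM.map_mul]
    congr 1
    rw [← hc]
    group
  · rintro ⟨c, h1⟩
    obtain ⟨c, rfl⟩ := hM.bij.2 c
    refine ⟨c, ?_⟩
    rw [← hM.map_mul, ← hM.map_mul] at h1
    rw [hM.bij.1 h1]
    group

lemma cset_finite {G : Type} [Group G] (S : Finset G) (n : ℕ) : (cset S n).Finite := by
  have hU : Set.Finite {x : G | x ∈ S ∨ x⁻¹ ∈ S} := by
    have h1 : Set.Finite ((S : Set G) ∪ (fun x : G => x⁻¹) ⁻¹' (S : Set G)) :=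
      S.finite_toSet.union (S.finite_toSet.preimage inv_injective.injOn)
    exact h1.subset (fun x hx => hx)
  haveI : Finite {x : G // x ∈ S ∨ x⁻¹ ∈ S} := hU
  have h2 := (List.finite_length_le {x : G // x ∈ S ∨ x⁻¹ ∈ S} n).image
    (fun l => ConjClasses.mk (l.map Subtype.val).prod)
  apply h2.subset
  rintro c ⟨⟨g, hg, l, hl, hS, hprod⟩, -⟩
  lift l to List {x : G // x ∈ S ∨ x⁻¹ ∈ S} using hS
  refine ⟨l, ?_, ?_⟩
  · simpa using hl
  · rw [← hg, ← hprod]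

theorem m28 (h16 : S_cj) : S_cset := by
  intro Λ _ σ G _ f S T hM hT hw
  obtain ⟨-, -, -, -, -, h6, h7, -, h9, -, -⟩ := h16 Λ σ T hT
  -- words give an upper bound for the length
  have hup : ∀ (g : G) (l : List G), (∀ x ∈ l, x ∈ S ∨ x⁻¹ ∈ S) → l.prod = g →
      len σ T (f g) ≤ l.length := by
    intro g l hl hp
    obtain ⟨w, hw1, hw2, hw3⟩ := (hw g l.length).1 ⟨l, rfl, hl, hp⟩
    rw [← hw1]
    exact len_le' hw2 hw3
  -- the class length is realized by a word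
  have hre : ∀ g : G, ∃ g' : G, ConjClasses.mk g' = ConjClasses.mk g ∧
      ∃ l : List G, l.length = clen σ T (f g) ∧ (∀ x ∈ l, x ∈ S ∨ x⁻¹ ∈ S) ∧ l.prod = g' := by
    intro g
    obtain ⟨q, hc, hl⟩ := h9 (f g)
    obtain ⟨g', rfl⟩ := hM.bij.2 q
    refine ⟨g', ((cj_iff hM g g').2 hc).symm, ?_⟩
    obtain ⟨w, hw1, hw2, hw3⟩ := exists_geo hT (f g')
    exact (hw g' _).2 ⟨w, hw3.trans hl, hw1, hw2⟩
  refine ⟨cset_finite S, ?_, cj_iff hM⟩
  intro g n
  constructor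
  · rintro ⟨⟨g', hg', l, hl, hS, hp⟩, hB⟩
    apply le_antisymm
    · rw [h6 _ _ ((cj_iff hM g g').1 hg'.symm)]
      exact (h7 _).trans ((hup g' l hS hp).trans hl)
    · obtain ⟨g'', hg'', l', hl', hS', hp'⟩ := hre g
      rw [← hl']
      exact hB g'' hg'' l' hS' hp'
  · rintro rfl
    refine ⟨?_, ?_⟩
    · obtain ⟨g'', hg'', l', hl', hS', hp'⟩ := hre g
      exact ⟨g'', hg'', l', hl'.le, hS', hp'⟩
    · intro g' hg' l hS hp
      rw [h6 _ _ ((cj_iff hM g g').1 hg'.symm)]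
      exact (h7 _).trans (hup g' l hS hp)

end Pool.Agent.J6H48.CH28
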